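import Pool.Agent.Helper17.R8.Sheet

/-! # MP_798d7d, rank eight: row INJ (the Jacobian modulo 29) -/

set_option autoImplicit false

namespace Pool.Helper17.R8
namespace InjRow

open Finset

section
variable {R : Type*} [CommRing R]

/-- the vector of the symmetric functions as a function -/
def ef (v : Fin 8 → R) : ℕ → R := fun k =>
  if k = 2 then v 0 else if k = 3 then v 1 else if k = 4 then v 2 else if k = 5 then v 3 else
  if k = 6 then v 4 else if k = 7 then v 5 else if k = 8 then v 6 else 0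

def gI (v : Fin 8 → R) : R := fI (ef v) (v 7)
def gJ (v : Fin 8 → R) : R := fJ (ef v) (v 7)
def gg (r : Fin 8) (v : Fin 8 → R) : R := if (r : ℕ) < 4 then gI v else gJ v

end

def bv (t : ℤ) : Fin 8 → ℤ := ![20, 14, 7, 7, 22, 13, 13, t]
def tt (r : Fin 8) : ℤ := (((r : ℕ) % 4 : ℕ) : ℤ)

def Mx : Fin 8 → Fin 8 → ℤ := ![![16, 22, 18, 14, 18, 11, 0, 18],
    ![26, 20, 28, 27, 5, 4, 13, 4],
    ![10, 1, 22, 6, 15, 26, 28, 8],
    ![24, 23, 0, 9, 19, 19, 16, 1],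
    ![19, 22, 25, 22, 11, 11, 19, 14],
    ![0, 15, 6, 15, 24, 12, 16, 5],
    ![17, 4, 10, 7, 24, 13, 11, 28],
    ![7, 2, 10, 4, 14, 28, 24, 15]]
def Nx : Fin 8 → Fin 8 → ℤ := ![![15, 13, 16, 14, 0, 0, 0, 0],
    ![14, 9, 14, 6, 26, 27, 4, 25],
    ![23, 3, 4, 18, 17, 25, 18, 11],
    ![13, 9, 11, 2, 8, 13, 19, 8],
    ![2, 5, 12, 1, 12, 12, 22, 7],
    ![24, 10, 11, 2, 8, 6, 14, 12],
    ![26, 3, 15, 5, 16, 5, 21, 16],
    ![2, 24, 26, 10, 28, 0, 22, 12]]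
def Tx : Fin 8 → Fin 8 → ℤ := ![![-37, -32, -34, -27, -29, -31, -29, -16],
    ![-51, -58, -66, -58, -69, -70, -75, -48],
    ![-56, -63, -50, -52, -76, -60, -56, -52],
    ![-39, -34, -44, -36, -50, -42, -42, -41],
    ![-33, -25, -38, -30, -45, -39, -43, -38],
    ![-44, -39, -50, -38, -49, -45, -40, -44],
    ![-53, -45, -58, -42, -63, -60, -53, -58],
    ![-74, -52, -80, -60, -60, -66, -78, -53]]

theorem num : ∀ r i : Fin 8, (841 : ℤ) ∣ gg r (fun j => bv (tt r) j + if j = i then 29 else 0) -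
    gg r (bv (tt r)) - 29 * Mx r i := by
  decide +kernel

theorem inv : ∀ j i : Fin 8, ∑ r, Nx j r * Mx r i + 29 * Tx j i = if i = j then 1 else 0 := by
  decide +kernel

theorem mat_step (h : ℤ) (d : Fin 8 → ℤ) (hd : ∀ i, h ∣ d i)
    (hr : ∀ r : Fin 8, 29 * h ∣ ∑ i, Mx r i * d i) (j : Fin 8) : 29 * h ∣ d j := by
  have e : d j = ∑ r, Nx j r * (∑ i, Mx r i * d i) + ∑ i, Tx j i * (29 * d i) := by
    have h1 : ∑ r, Nx j r * (∑ i, Mx r i * d i) = ∑ i, (∑ r, Nx j r * Mx r i) * d i := by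
      simp_rw [Finset.mul_sum, Finset.sum_mul]
      rw [Finset.sum_comm]
      exact Finset.sum_congr rfl fun i _ => Finset.sum_congr rfl fun r _ => by ring
    rw [h1, ← Finset.sum_add_distrib]
    have h2 : ∀ i ∈ (Finset.univ : Finset (Fin 8)),
        (∑ r, Nx j r * Mx r i) * d i + Tx j i * (29 * d i) = if i = j then d i else 0 := by
      intro i _
      have h3 := inv j i
      have h4 : (∑ r, Nx j r * Mx r i) * d i + Tx j i * (29 * d i) =
          (∑ r, Nx j r * Mx r i + 29 * Tx j i) * d i := by ring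
      rw [h4, h3]
      split_ifs <;> simp
    rw [Finset.sum_congr rfl h2]
    simp
  rw [e]
  apply dvd_add
  · exact Finset.dvd_sum fun r _ => Dvd.dvd.mul_left (hr r) _
  · exact Finset.dvd_sum fun i _ => Dvd.dvd.mul_left (mul_dvd_mul_left 29 (hd i)) _

theorem eval_gg (r : Fin 8) (v : Fin 8 → ℤ) :
    MvPolynomial.eval v (gg r (MvPolynomial.X : Fin 8 → MvPolynomial (Fin 8) ℤ)) = gg r v := by
  unfold gg
  split_ifs
  · simp [gI, fI, q4, q3, q2, q1, q0, ef]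
  · simp [gJ, fJ, q4, q3, q2, q1, q0, ef]

theorem gg_vec (r : Fin 8) (e : ℕ → ℤ) (t : ℤ) :
    gg r ![e 2, e 3, e 4, e 5, e 6, e 7, e 8, t] = if (r : ℕ) < 4 then fI e t else fJ e t := by
  unfold gg
  split_ifs
  · simp [gI, fI, q4, q3, q2, q1, q0, ef]
  · simp [gJ, fJ, q4, q3, q2, q1, q0, ef]

theorem lin (hL : ST_LINZ) (r : Fin 8) (x y : Fin 8 → ℤ) (h : ℤ) (h29 : (29 : ℤ) ∣ h)
    (hy : ∀ i, (29 : ℤ) ∣ y i - bv (tt r) i) (hxy : ∀ i, h ∣ x i - y i)
    (hg : gg r x = gg r y) : 29 * h ∣ ∑ i, Mx r i * (x i - y i) := by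
  obtain ⟨L, hL⟩ := hL (gg r (MvPolynomial.X : Fin 8 → MvPolynomial (Fin 8) ℤ)) 29 (bv (tt r))
  have hLM : ∀ i, (29 : ℤ) ∣ L i - Mx r i := by
    intro i
    have h1 := hL (fun j => bv (tt r) j + if j = i then 29 else 0) (bv (tt r)) 29 (dvd_refl _)
      (fun j => by simp) (fun j => by
        show (29 : ℤ) ∣ (bv (tt r) j + if j = i then 29 else 0) - bv (tt r) j
        split_ifs <;> simp)
    rw [eval_gg, eval_gg] at h1
    have h2 : ∑ j, L j * ((bv (tt r) j + if j = i then 29 else 0) - bv (tt r) j) = L i * 29 := by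
      have h3 : ∀ j ∈ (Finset.univ : Finset (Fin 8)),
          L j * ((bv (tt r) j + if j = i then 29 else 0) - bv (tt r) j) =
            if j = i then L j * 29 else 0 := by
        intro j _
        split_ifs <;> ring
      rw [Finset.sum_congr rfl h3]
      simp
    rw [h2] at h1
    have h4 := num r i
    have h5 : (841 : ℤ) ∣ 29 * (L i - Mx r i) := by
      have h6 : (841 : ℤ) ∣ gg r (fun j => bv (tt r) j + if j = i then 29 else 0) -
          gg r (bv (tt r)) - L i * 29 := by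
        have : (29 * 29 : ℤ) = 841 := by norm_num
        rw [this] at h1
        exact h1
      have h7 := dvd_sub h4 h6
      have h8 : (gg r (fun j => bv (tt r) j + if j = i then 29 else 0) -
          gg r (bv (tt r)) - 29 * Mx r i) - (gg r (fun j => bv (tt r) j + if j = i then 29 else 0) -
          gg r (bv (tt r)) - L i * 29) = 29 * (L i - Mx r i) := by ring
      rwa [h8] at h7
    have h9 : (29 * 29 : ℤ) ∣ 29 * (L i - Mx r i) := by
      have : (29 * 29 : ℤ) = 841 := by norm_num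
      rw [this]
      exact h5
    exact (mul_dvd_mul_iff_left (by norm_num)).mp h9
  have h1 := hL x y h h29 hy hxy
  rw [eval_gg, eval_gg, hg, sub_self, zero_sub] at h1
  have h2 : 29 * h ∣ ∑ i, (L i - Mx r i) * (x i - y i) :=
    Finset.dvd_sum fun i _ => mul_dvd_mul (hLM i) (hxy i)
  have h3 := (dvd_neg.mp h1)
  have h4 := dvd_sub h3 h2
  have h5 : ∑ i, L i * (x i - y i) - ∑ i, (L i - Mx r i) * (x i - y i) =
      ∑ i, Mx r i * (x i - y i) := by
    rw [← Finset.sum_sub_distrib]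
    exact Finset.sum_congr rfl fun i _ => by ring
  rwa [h5] at h4

/-- the base -/
def sb : Fin 8 → ℤ := ![-5, 13, -17, 15, 7, -11, 1, -3]

theorem sb_e : ek sb 2 = -444 ∧ ek sb 3 = -160 ∧ ek sb 4 = 53454 ∧ ek sb 5 = -16320 ∧
    ek sb 6 = -1588076 ∧ ek sb 7 = 2310240 ∧ ek sb 8 = 3828825 := by
  decide +kernel

theorem sb_inj : ∀ k j : Fin 8, (29 : ℤ) ∣ sb k - sb j → k = j := by decide +kernel

theorem ek_cong (s s' : Fin 8 → ℤ) (h : ∀ i, (29 : ℤ) ∣ s i - s' i) (k : ℕ) :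
    (29 : ℤ) ∣ ek s k - ek s' k := by
  have h1 : ∀ s : Fin 8 → ℤ, ((ek s k : ℤ) : ZMod 29) = ek (fun i => ((s i : ℤ) : ZMod 29)) k := by
    intro s
    simp [ek]
  have h2 : (fun i => ((s i : ℤ) : ZMod 29)) = (fun i => ((s' i : ℤ) : ZMod 29)) := by
    funext i
    have := (ZMod.intCast_zmod_eq_zero_iff_dvd (s i - s' i) 29).mpr (by exact_mod_cast h i)
    rw [Int.cast_sub, sub_eq_zero] at this
    exact this
  have h3 : ((ek s k - ek s' k : ℤ) : ZMod 29) = 0 := by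
    rw [Int.cast_sub, h1, h1, h2, sub_self]
  exact_mod_cast (ZMod.intCast_zmod_eq_zero_iff_dvd _ 29).mp h3

theorem MM29 : (29 : ℤ) ∣ MM := by
  unfold MM
  apply Dvd.dvd.mul_left
  have : 29 ∣ QQ.factorial := Nat.dvd_factorial (by norm_num) (by unfold QQ; norm_num)
  exact_mod_cast this

theorem ss_cong (u : Fin 6 → ℤ) (h : ∀ i, MM ∣ u i - ub i) (i : Fin 8) :
    (29 : ℤ) ∣ ss u i - sb i := by
  have h' : ∀ i, (29 : ℤ) ∣ u i - ub i := fun i => MM29.trans (h i)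
  have h0 : (29 : ℤ) ∣ u 0 - (-5) := h' 0
  have h1 : (29 : ℤ) ∣ u 1 - 13 := h' 1
  have h2 : (29 : ℤ) ∣ u 2 - (-17) := h' 2
  have h3 : (29 : ℤ) ∣ u 3 - 15 := h' 3
  have h4 : (29 : ℤ) ∣ u 4 - 7 := h' 4
  have h5 : (29 : ℤ) ∣ u 5 - (-11) := h' 5
  fin_cases i
  · exact h0
  · exact h1
  · exact h2
  · exact h3
  · exact h4
  · exact h5
  · show (29 : ℤ) ∣ 1 - 1
    simp
  · show (29 : ℤ) ∣ -(u 0 + u 1 + u 2 + u 3 + u 4 + u 5 + 1) - (-3)
    omega

theorem aux3 {a b c : ℤ} (h : (29 : ℤ) ∣ a - b) (h' : (29 : ℤ) ∣ b - c) : (29 : ℤ) ∣ a - c := by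
  have := dvd_add h h'
  rwa [sub_add_sub_cancel] at this

theorem e_cong' (e : ℕ → ℤ) (c2 : (29 : ℤ) ∣ e 2 - -444) (c3 : (29 : ℤ) ∣ e 3 - -160)
    (c4 : (29 : ℤ) ∣ e 4 - 53454) (c5 : (29 : ℤ) ∣ e 5 - -16320)
    (c6 : (29 : ℤ) ∣ e 6 - -1588076) (c7 : (29 : ℤ) ∣ e 7 - 2310240)
    (c8 : (29 : ℤ) ∣ e 8 - 3828825) (t : ℤ) (i : Fin 8) :
    (29 : ℤ) ∣ (![e 2, e 3, e 4, e 5, e 6, e 7, e 8, t] : Fin 8 → ℤ) i - bv t i := by
  fin_cases i
  · show (29 : ℤ) ∣ e 2 - 20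
    omega
  · show (29 : ℤ) ∣ e 3 - 14
    omega
  · show (29 : ℤ) ∣ e 4 - 7
    omega
  · show (29 : ℤ) ∣ e 5 - 7
    omega
  · show (29 : ℤ) ∣ e 6 - 22
    omega
  · show (29 : ℤ) ∣ e 7 - 13
    omega
  · show (29 : ℤ) ∣ e 8 - 13
    omega
  · show (29 : ℤ) ∣ t - t
    rw [sub_self]
    exact dvd_zero _

theorem e_cong (u : Fin 6 → ℤ) (h : ∀ i, MM ∣ u i - ub i) :
    ∀ (t : ℤ) (i : Fin 8), (29 : ℤ) ∣ (![ek (ss u) 2, ek (ss u) 3, ek (ss u) 4, ek (ss u) 5,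
      ek (ss u) 6, ek (ss u) 7, ek (ss u) 8, t] : Fin 8 → ℤ) i - bv t i := by
  have hc := fun k => ek_cong (ss u) sb (ss_cong u h) k
  obtain ⟨a2, a3, a4, a5, a6, a7, a8⟩ := sb_e
  generalize ek (ss u) = e at *
  have c2 := hc 2
  have c3 := hc 3
  have c4 := hc 4
  have c5 := hc 5
  have c6 := hc 6
  have c7 := hc 7
  have c8 := hc 8
  rw [a2] at c2
  rw [a3] at c3
  rw [a4] at c4
  rw [a5] at c5
  rw [a6] at c6
  rw [a7] at c7
  rw [a8] at c8
  exact e_cong' e c2 c3 c4 c5 c6 c7 c8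

theorem all_pow {d : ℤ} (h : ∀ k : ℕ, (29 : ℤ) ^ (k + 1) ∣ d) : d = 0 := by
  by_contra hd
  have h1 := Int.le_of_dvd (abs_pos.mpr hd) ((dvd_abs _ _).mpr (h d.natAbs))
  have h2 : d.natAbs < 29 ^ (d.natAbs + 1) :=
    (Nat.lt_pow_self (by norm_num)).trans (Nat.pow_lt_pow_right (by norm_num) (Nat.lt_succ_self _))
  have h3 : ((d.natAbs : ℕ) : ℤ) < (29 : ℤ) ^ (d.natAbs + 1) := by exact_mod_cast h2
  rw [Int.natCast_natAbs] at h3
  linarith

theorem ek_one (s : Fin 8 → ℤ) : ek s 1 = ∑ i, s i := by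
  unfold ek
  rw [Finset.powersetCard_one, Finset.sum_map]
  simp

theorem ss_sum (u : Fin 6 → ℤ) : ek (ss u) 1 = 0 := by
  rw [ek_one, Fin.sum_univ_eight]
  show u 0 + u 1 + u 2 + u 3 + u 4 + u 5 + 1 + -(u 0 + u 1 + u 2 + u 3 + u 4 + u 5 + 1) = 0
  ring

theorem core (hL : ST_LINZ) (e e' : ℕ → ℤ) (β : ℤ) (hβ : (29 : ℤ) ∣ β)
    (hb : ∀ (t : ℤ) (i : Fin 8), (29 : ℤ) ∣
      (![e 2, e 3, e 4, e 5, e 6, e 7, e 8, t] : Fin 8 → ℤ) i - bv t i)
    (h0 : ∀ k, (29 : ℤ) ∣ e' k - e k)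
    (H : ∀ τ : ℤ, fI e' (τ + β) = fI e τ ∧ fJ e' (τ + β) = fJ e τ) :
    e' 2 = e 2 ∧ e' 3 = e 3 ∧ e' 4 = e 4 ∧ e' 5 = e 5 ∧ e' 6 = e 6 ∧ e' 7 = e 7 ∧ e' 8 = e 8 := by
  have key : ∀ k : ℕ, ∀ i : Fin 8, (29 : ℤ) ^ (k + 1) ∣
      (![e' 2 - e 2, e' 3 - e 3, e' 4 - e 4, e' 5 - e 5, e' 6 - e 6, e' 7 - e 7, e' 8 - e 8, β] :
        Fin 8 → ℤ) i := by
    intro k
    induction k with
    | zero =>
      rw [zero_add, pow_one]
      intro i
      fin_cases i
      · exact h0 2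
      · exact h0 3
      · exact h0 4
      · exact h0 5
      · exact h0 6
      · exact h0 7
      · exact h0 8
      · exact hβ
    | succ k ih =>
      rw [pow_succ, mul_comm]
      apply mat_step _ _ ih
      intro r
      have h1 := lin hL r ![e' 2, e' 3, e' 4, e' 5, e' 6, e' 7, e' 8, tt r + β]
        ![e 2, e 3, e 4, e 5, e 6, e 7, e 8, tt r] ((29 : ℤ) ^ (k + 1)) (dvd_pow_self _ (by omega))
        (hb (tt r)) ?_ ?_
      · convert h1 using 1
        apply Finset.sum_congr rfl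
        intro i _
        congr 1
        fin_cases i
        · rfl
        · rfl
        · rfl
        · rfl
        · rfl
        · rfl
        · rfl
        · show β = tt r + β - tt r
          ring
      · intro i
        have h2 := ih i
        fin_cases i
        · exact h2
        · exact h2
        · exact h2
        · exact h2
        · exact h2
        · exact h2
        · exact h2
        · have h3 : (29 : ℤ) ^ (k + 1) ∣ β := h2
          show (29 : ℤ) ^ (k + 1) ∣ tt r + β - tt r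
          rwa [add_sub_cancel_left]
      · rw [gg_vec, gg_vec]
        split_ifs
        · exact (H (tt r)).1
        · exact (H (tt r)).2
  exact ⟨sub_eq_zero.mp (all_pow (fun k => key k 0)), sub_eq_zero.mp (all_pow (fun k => key k 1)),
    sub_eq_zero.mp (all_pow (fun k => key k 2)), sub_eq_zero.mp (all_pow (fun k => key k 3)),
    sub_eq_zero.mp (all_pow (fun k => key k 4)), sub_eq_zero.mp (all_pow (fun k => key k 5)),
    sub_eq_zero.mp (all_pow (fun k => key k 6))⟩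

theorem st_INJ (hL : ST_LINZ) (hV : ST_VIE) : ST_INJ := by
  intro w w' hw hw' β hβ H
  have hc : ∀ i, (29 : ℤ) ∣ ss w'.1 i - ss w.1 i := by
    intro i
    have h1 := ss_cong w.1 hw.1 i
    have h2 := ss_cong w'.1 hw'.1 i
    have h3 := dvd_sub h2 h1
    rwa [sub_sub_sub_cancel_right] at h3
  obtain ⟨f2, f3, f4, f5, f6, f7, f8⟩ := core hL (ek (ss w.1)) (ek (ss w'.1)) β hβ
    (e_cong w.1 hw.1) (fun k => ek_cong (ss w'.1) (ss w.1) hc k) H
  have hs : ∀ k : Fin 8, ss w'.1 k = ss w.1 k := by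
    intro k
    have h1 := hV ℤ (ss w.1) (ss w'.1 k)
    have h2 := hV ℤ (ss w'.1) (ss w'.1 k)
    rw [ss_sum] at h1 h2
    rw [f2, f3, f4, f5, f6, f7, f8] at h2
    have h3 : ∏ i, (ss w'.1 k - ss w'.1 i) = 0 :=
      Finset.prod_eq_zero (Finset.mem_univ k) (sub_self _)
    rw [h3] at h2
    rw [← h2] at h1
    obtain ⟨j, -, hj⟩ := Finset.prod_eq_zero_iff.mp h1
    have h4 : ss w'.1 k = ss w.1 j := sub_eq_zero.mp hj
    have h5 := ss_cong w'.1 hw'.1 k
    have h6 := ss_cong w.1 hw.1 j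
    have h7 : (29 : ℤ) ∣ sb k - sb j := by
      rw [h4] at h5
      omega
    have h8 := sb_inj k j h7
    rw [h4, h8]
  funext i
  fin_cases i
  · exact (hs 0).symm
  · exact (hs 1).symm
  · exact (hs 2).symm
  · exact (hs 3).symm
  · exact (hs 4).symm
  · exact (hs 5).symm

end InjRow

theorem st_INJ (hL : ST_LINZ) (hV : ST_VIE) : ST_INJ := InjRow.st_INJ hL hV

end Pool.Helper17.R8
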